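import Pool.Agent.W295.NL.Stm

set_option autoImplicit false

namespace Pool.Agent.W94.NL.OB

open Pool.Agent.W295.NL

/-- The weights. -/
def w (q : ℕ) (a : Fin 3) : ZMod q := if a = 2 then -2 else 1

theorem w_sum (q : ℕ) (a b c : Fin 3) (hab : a ≠ b) (hac : a ≠ c) (hbc : b ≠ c) :
    w q a = - w q b - w q c := by
  fin_cases a <;> fin_cases b <;> fin_cases c <;> simp_all [w] <;> ring

theorem w_cancel (q : ℕ) (hq : Odd q) (a : Fin 3) (k : ℕ) (h : (k : ZMod q) * w q a = 0) :
    (k : ZMod q) = 0 := by
  unfold w at h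
  split_ifs at h with ha
  · have h2 : ((k * 2 : ℕ) : ZMod q) = 0 := by
      push_cast
      linear_combination -h
    rw [ZMod.natCast_eq_zero_iff] at h2 ⊢
    exact (Nat.Coprime.dvd_of_dvd_mul_right (Nat.coprime_two_right.mpr hq) h2)
  · simpa using h

theorem sum3 {R : Type} [CommRing R] (a b : Fin 3) (hab : a ≠ b) (x y z : R) :
    (if (0 : Fin 3) = a then x else if (0 : Fin 3) = b then y else z) +
    (if (1 : Fin 3) = a then x else if (1 : Fin 3) = b then y else z) +
    (if (2 : Fin 3) = a then x else if (2 : Fin 3) = b then y else z) = x + y + z := by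
  fin_cases a <;> fin_cases b <;> first | exact absurd rfl hab | (simp; try ring)

theorem main : S_OB := by
  intro Q L n q hn hq hB f
  obtain ⟨X, κ, hC, hinj⟩ := hB
  have h2n : 0 < 2 * n := by omega
  set A : ℕ → ZMod q := fun t => ((t / (2 * n) : ℕ) : ZMod q) * w q (κ t) with hA
  set F : ℕ → ZMod q := fun t => f (X 0 t) (X 1 t) with hF
  set B : ℕ → ZMod q := fun t => - F t - A t - A (t + 1) with hBd
  set S : Fin 3 → ℕ → ZMod q := fun a t =>
    if a = κ t then A t else if a = κ (t + 1) then A (t + 1) else B t with hS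
  have hAp : ∀ t, A (t + 2 * n) = A t + w q (κ t) := by
    intro t
    simp only [hA, hC.kper t, Nat.add_div_right t h2n]
    push_cast
    ring
  have hFp : ∀ t, F (t + 2 * n) = F t := by
    intro t
    simp only [hF, hC.per]
  have hSp : ∀ a t, S a (t + 2 * n) = S a t + w q a := by
    intro a t
    have e1 : κ (t + 2 * n + 1) = κ (t + 1) := by
      rw [show t + 2 * n + 1 = (t + 1) + 2 * n by ring]; exact hC.kper _
    have e2 : A (t + 2 * n + 1) = A (t + 1) + w q (κ (t + 1)) := by
      rw [show t + 2 * n + 1 = (t + 1) + 2 * n by ring]; exact hAp _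
    simp only [hS, hC.kper t, e1, hAp t, e2]
    split_ifs with h1 h2
    · rw [h1]
    · rw [h2]
    · simp only [hBd, hFp t, hAp t, e2]
      rw [w_sum q a (κ t) (κ (t + 1)) h1 h2 (hC.kne t)]
      ring
  have hSk : ∀ a t (k : ℕ), S a (t + 2 * n * k) = S a t + (k : ZMod q) * w q a := by
    intro a t k
    induction k with
    | zero => simp
    | succ k ih =>
      rw [show t + 2 * n * (k + 1) = (t + 2 * n * k) + 2 * n by ring, hSp, ih]
      push_cast
      ring
  have hXk : ∀ a t (k : ℕ), X a (t + 2 * n * k) = X a t := by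
    intro a t k
    induction k with
    | zero => simp
    | succ k ih =>
      rw [show t + 2 * n * (k + 1) = (t + 2 * n * k) + 2 * n by ring, hC.per, ih]
  have hκk : ∀ t (k : ℕ), κ (t + 2 * n * k) = κ t := by
    intro t k
    induction k with
    | zero => simp
    | succ k ih =>
      rw [show t + 2 * n * (k + 1) = (t + 2 * n * k) + 2 * n by ring, hC.kper, ih]
  have hsum : ∀ t, S 0 t + S 1 t + S 2 t = - F t := by
    intro t
    have hk := hC.kne t
    have e : S 0 t + S 1 t + S 2 t = A t + A (t + 1) + B t := sum3 _ _ hk _ _ _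
    rw [e]
    simp only [hBd]
    ring
  refine ⟨fun a t => (X a t, if a = 2 then - S 2 t else S a t), κ, ⟨?_, ?_, ?_, ?_, ?_⟩, ?_⟩
  · intro a t
    have e : t + 2 * (n * q) = t + 2 * n * q := by ring
    simp only [e, hXk, hSk, ZMod.natCast_self, zero_mul, add_zero]
  · intro t
    have e : t + 2 * (n * q) = t + 2 * n * q := by ring
    rw [e, hκk]
  · intro t
    have := hsum t
    refine Prod.ext (hC.sym t) ?_
    simp only [Pool.Agent.W295.NL.Ext, if_true, show ((0 : Fin 3) = 2) = False by simp,
      show ((1 : Fin 3) = 2) = False by simp, if_false]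
    have hF' : f (X 0 t) (X 1 t) = F t := rfl
    rw [hF']
    linear_combination -this
  · exact hC.kne
  · intro t
    have e1 : ∀ a, a = κ (t + 1) → S a (t + 1) = S a t := by
      intro a ha
      subst ha
      simp only [hS, if_true, if_neg (hC.kne t).symm]
    refine Prod.ext (hC.edge t) ?_
    simp only
    split_ifs with h2
    · rw [e1 2 h2.symm]
    · rw [e1 _ rfl]
  · have key : ∀ a t t', t ≤ t' → (X a t, if a = 2 then - S 2 t else S a t) =
        (X a t', if a = 2 then - S 2 t' else S a t') → t ≡ t' [MOD 2] →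
        t ≡ t' [MOD 2 * (n * q)] := by
      intro a t t' hle he hm
      obtain ⟨h1, h2⟩ := Prod.ext_iff.mp he
      have h3 := hinj a t t' h1 hm
      obtain ⟨k, hk⟩ := (Nat.modEq_iff_dvd' hle).mp h3
      have hk' : t' = t + 2 * n * k := by omega
      have h4 : S a t = S a t' := by
        simp only at h2
        split_ifs at h2 with ha
        · rw [ha]; exact neg_injective h2
        · exact h2
      rw [hk', hSk] at h4
      have h5 : (k : ZMod q) * w q a = 0 := by linear_combination -h4
      have h6 := w_cancel q hq a k h5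
      rw [ZMod.natCast_eq_zero_iff] at h6
      obtain ⟨m, rfl⟩ := h6
      rw [hk']
      refine (Nat.modEq_iff_dvd' (by omega)).mpr ⟨m, ?_⟩
      rw [Nat.add_sub_cancel_left]
      ring
    intro a t t' he hm
    rcases le_total t t' with hle | hle
    · exact key a t t' hle he hm
    · exact (key a t' t hle he.symm hm.symm).symm

end Pool.Agent.W94.NL.OB
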